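import Pool.Agent.TH818.SA.Sub
import Pool.Agent.Q163.LE.Sim

/-!
# Odd zeta values outside spaces over sets of simultaneously approximable numbers
-/

set_option autoImplicit false

namespace Pool.Agent.J6H48.OL

open Filter Topology

/-- any finitely many elements of `V` have simultaneous rational approximations of order `w` -/
def SA (V : Set ℝ) (w : ℕ) : Prop :=
  ∀ s : Finset ℝ, (∀ x ∈ s, x ∈ V) → ∀ q0 : ℕ, ∃ q : ℕ, q0 ≤ q ∧ 1 ≤ q ∧
    ∀ x ∈ s, ∃ p : ℤ, |(q : ℝ) * x - p| < 1 / (q : ℝ) ^ w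

/-- finitely many elements of `V v_1 + … + V v_D` are simultaneously approximable -/
theorem sim_comb {V : Set ℝ} {D : ℕ} (hV : SA V ((D + 2) ^ 2)) (v : Fin D → ℝ) (J : Finset ℕ)
    (x : ℕ → ℝ) (hx : ∀ i ∈ J, ∃ c : Fin D → ℝ, (∀ a, c a ∈ V) ∧ x i = ∑ a, c a * v a) (q0 : ℕ) :
    ∃ n : ℕ, q0 ≤ n ∧ ∀ i ∈ J, ∃ p : ℤ, |(n : ℝ) * x i - p| < (n : ℝ) ^ (-(1 / ((D : ℝ) + 1))) := by
  classical
  have h1 : ∀ i, ∃ c : Fin D → ℝ, i ∈ J → (∀ a, c a ∈ V) ∧ x i = ∑ a, c a * v a := by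
    intro i
    by_cases hi : i ∈ J
    · obtain ⟨c, hc⟩ := hx i hi
      exact ⟨c, fun _ => hc⟩
    · exact ⟨0, fun h => absurd h hi⟩
  choose c hc using h1
  set s : Finset ℝ := J.biUnion fun i => Finset.univ.image (c i) with hs
  have hsV : ∀ y ∈ s, y ∈ V := by
    intro y hy
    obtain ⟨i, hi, hy⟩ := Finset.mem_biUnion.1 hy
    obtain ⟨a, _, rfl⟩ := Finset.mem_image.1 hy
    exact (hc i hi).1 a
  -- bounds
  obtain ⟨K, hK⟩ : ∃ K : ℕ, ∀ i ∈ J, ∀ a, |c i a| ≤ K := by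
    obtain ⟨K, hK⟩ := exists_nat_ge (∑ i ∈ J, ∑ a, |c i a|)
    refine ⟨K, fun i hi a => le_trans ?_ hK⟩
    refine le_trans ?_ (Finset.single_le_sum (f := fun i => ∑ a, |c i a|)
      (fun i _ => Finset.sum_nonneg fun _ _ => abs_nonneg _) hi)
    exact Finset.single_le_sum (f := fun a => |c i a|) (fun _ _ => abs_nonneg _)
      (Finset.mem_univ a)
  obtain ⟨L, hL⟩ := exists_nat_ge (∑ a, |v a|)
  -- the parameter `q`
  obtain ⟨q, hq0, hq1, hq⟩ := hV s hsV (max q0 ((L + D * (K + 1)) ^ (D + 1) + 1))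
  have hqq0 : q0 ≤ q := (le_max_left _ _).trans hq0
  have hqR : (L + D * (K + 1)) ^ (D + 1) + 1 ≤ q := (le_max_right _ _).trans hq0
  have hqr : (1 : ℝ) ≤ q := by exact_mod_cast hq1
  have hqpos : (0 : ℝ) < q := by linarith
  have hqRr : ((L : ℝ) + D * (K + 1)) ^ (D + 1) + 1 ≤ q := by exact_mod_cast hqR
  -- Dirichlet
  obtain ⟨t, ht1, ht2, ht3⟩ := Pool.Agent.TH818.SA.dirichlet_sim D v (q ^ (D + 3))
    (Nat.one_le_pow _ _ (by omega))
  choose m hm using ht3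
  have hcp : ∀ i, ∀ a, ∃ p : ℤ, i ∈ J → |(q : ℝ) * c i a - p| < 1 / (q : ℝ) ^ ((D + 2) ^ 2) := by
    intro i a
    by_cases hi : i ∈ J
    · obtain ⟨p, hp⟩ := hq (c i a) (Finset.mem_biUnion.2 ⟨i, hi, Finset.mem_image_of_mem _ (Finset.mem_univ a)⟩)
      exact ⟨p, fun _ => hp⟩
    · exact ⟨0, fun h => absurd h hi⟩
  choose p hp using hcp
  refine ⟨t * q, ?_, fun i hi => ⟨∑ a, p i a * m a, ?_⟩⟩
  · calc q0 ≤ 1 * q := by omega
      _ ≤ t * q := Nat.mul_le_mul_right q ht1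
  have htr : (1 : ℝ) ≤ t := by exact_mod_cast ht1
  have ht2r : (t : ℝ) ≤ (q : ℝ) ^ ((D + 3) * D) := by
    rw [pow_mul]
    exact_mod_cast ht2
  have e1 : ((t * q : ℕ) : ℝ) * x i - ((∑ a, p i a * m a : ℤ) : ℝ) =
      ∑ a, ((t : ℝ) * v a * ((q : ℝ) * c i a - p i a) + (p i a : ℝ) * ((t : ℝ) * v a - m a)) := by
    rw [(hc i hi).2]
    push_cast
    rw [Finset.mul_sum, ← Finset.sum_sub_distrib]
    refine Finset.sum_congr rfl fun a _ => ?_
    ring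
  have hpa : ∀ a, |(p i a : ℝ)| ≤ (K + 1) * q := by
    intro a
    have h2 := hp i a hi
    have h3 : 1 / (q : ℝ) ^ ((D + 2) ^ 2) ≤ 1 := by
      rw [div_le_one (by positivity)]
      exact one_le_pow₀ hqr
    have h4 : |(p i a : ℝ)| ≤ |(q : ℝ) * c i a| + |(q : ℝ) * c i a - p i a| := by
      have h5 := abs_sub ((q : ℝ) * c i a) ((q : ℝ) * c i a - p i a)
      rwa [sub_sub_cancel] at h5
    rw [abs_mul, Nat.abs_cast] at h4
    have h6 := mul_le_mul_of_nonneg_left (hK i hi a) hqpos.le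
    nlinarith
  -- the size of the error
  have e2 : |((t * q : ℕ) : ℝ) * x i - ((∑ a, p i a * m a : ℤ) : ℝ)| ≤
      (L + D * (K + 1)) / (q : ℝ) ^ (D + 2) := by
    rw [e1]
    refine (Finset.abs_sum_le_sum_abs _ _).trans ?_
    have hterm : ∀ a, |(t : ℝ) * v a * ((q : ℝ) * c i a - p i a) + (p i a : ℝ) * ((t : ℝ) * v a - m a)| ≤
        |v a| / (q : ℝ) ^ (D + 2) + (K + 1) / (q : ℝ) ^ (D + 2) := by
      intro a
      refine (abs_add_le _ _).trans (add_le_add ?_ ?_)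
      · rw [abs_mul, abs_mul, Nat.abs_cast]
        have h2 := (hp i a hi).le
        calc (t : ℝ) * |v a| * |(q : ℝ) * c i a - p i a|
            ≤ (q : ℝ) ^ ((D + 3) * D) * |v a| * (1 / (q : ℝ) ^ ((D + 2) ^ 2)) := by
              gcongr
          _ = |v a| * ((q : ℝ) ^ ((D + 3) * D) / (q : ℝ) ^ ((D + 2) ^ 2)) := by ring
          _ ≤ |v a| * (1 / (q : ℝ) ^ (D + 2)) := by
              apply mul_le_mul_of_nonneg_left _ (abs_nonneg _)
              rw [div_le_div_iff₀ (by positivity) (by positivity), one_mul, ← pow_add]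
              apply pow_le_pow_right₀ hqr
              nlinarith
          _ = _ := by ring
      · rw [abs_mul]
        have h2 := (hm a).le
        push_cast at h2
        calc |(p i a : ℝ)| * |(t : ℝ) * v a - m a| ≤ ((K + 1) * q) * (1 / (q : ℝ) ^ (D + 3)) := by
              have := hpa a
              gcongr
          _ = (K + 1) * (q / (q : ℝ) ^ (D + 3)) := by ring
          _ = (K + 1) / (q : ℝ) ^ (D + 2) := by
              rw [show D + 3 = (D + 2) + 1 by ring, pow_succ]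
              field_simp
    refine (Finset.sum_le_sum fun a _ => hterm a).trans ?_
    rw [Finset.sum_add_distrib, ← Finset.sum_div, Finset.sum_const, Finset.card_univ, Fintype.card_fin,
      nsmul_eq_mul, ← mul_div_assoc, ← add_div]
    gcongr
  refine lt_of_le_of_lt e2 ?_
  -- comparison
  have hnpos : (0 : ℝ) < ((t * q : ℕ) : ℝ) := by
    push_cast
    positivity
  have hE0 : (0 : ℝ) ≤ (L + D * (K + 1)) / (q : ℝ) ^ (D + 2) := by positivity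
  have e3 : ((L + D * (K + 1)) / (q : ℝ) ^ (D + 2)) ^ (D + 1) < (((t * q : ℕ) : ℝ))⁻¹ := by
    have f1 : ((t * q : ℕ) : ℝ) ≤ (q : ℝ) ^ ((D + 3) * D + 1) := by
      rw [pow_succ]
      push_cast
      exact mul_le_mul_of_nonneg_right ht2r hqpos.le
    rw [div_pow, div_lt_iff₀ (by positivity), ← div_eq_inv_mul, lt_div_iff₀ hnpos]
    calc ((L : ℝ) + D * (K + 1)) ^ (D + 1) * ((t * q : ℕ) : ℝ)
        ≤ ((L : ℝ) + D * (K + 1)) ^ (D + 1) * (q : ℝ) ^ ((D + 3) * D + 1) :=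
          mul_le_mul_of_nonneg_left f1 (by positivity)
      _ < q * (q : ℝ) ^ ((D + 3) * D + 1) := by
          apply mul_lt_mul_of_pos_right _ (by positivity)
          linarith
      _ = ((q : ℝ) ^ (D + 2)) ^ (D + 1) := by
          rw [← pow_mul, ← pow_succ']
          congr 1
          ring
  have e4 : (L + D * (K + 1)) / (q : ℝ) ^ (D + 2) =
      (((L + D * (K + 1)) / (q : ℝ) ^ (D + 2)) ^ (D + 1)) ^ (1 / ((D : ℝ) + 1)) := by
    rw [← Real.rpow_natCast (((L : ℝ) + D * (K + 1)) / (q : ℝ) ^ (D + 2)) (D + 1),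
      ← Real.rpow_mul hE0]
    push_cast
    rw [mul_one_div_cancel (by positivity), Real.rpow_one]
  have e5 : ((t * q : ℕ) : ℝ) ^ (-(1 / ((D : ℝ) + 1))) =
      (((t * q : ℕ) : ℝ)⁻¹) ^ (1 / ((D : ℝ) + 1)) := by
    rw [Real.rpow_neg hnpos.le, Real.inv_rpow hnpos.le]
  rw [e4, e5]
  exact Real.rpow_lt_rpow (by positivity) e3 (by positivity)

/-- **Odd zeta values outside `V v_1 + … + V v_D`.** -/
theorem t_comb : ∃ s0 : ℕ, ∀ s ≥ s0, ∀ D : ℕ,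
    ((D : ℝ) + 1) ≤ (1 / 1000) * Real.log (Real.log s) →
    ∀ V : Set ℝ, SA V ((D + 2) ^ 2) → ∀ v : Fin D → ℝ,
    (1 / 1000) / ((D : ℝ) + 1) * Real.sqrt (s * Real.log (Real.log s) / Real.log s) ≤
      (Set.ncard {i : ℕ | 3 ≤ i ∧ i ≤ s ∧ Odd i ∧ ¬ ∃ c : Fin D → ℝ, (∀ a, c a ∈ V) ∧
        (∑' n : ℕ, 1 / ((n : ℝ) + 1) ^ i) = ∑ a, c a * v a} : ℝ) := by
  classical
  obtain ⟨s0, hs0⟩ := Pool.Agent.TH818.SA.t_final
  refine ⟨s0, fun s hs D hDL V hV v => ?_⟩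
  obtain ⟨q0, hq0⟩ := hs0 s hs (D + 1) (by omega) (by push_cast; exact hDL)
  set J : Finset ℕ := (Finset.Icc 3 s).filter (fun i => Odd i ∧ ∃ c : Fin D → ℝ, (∀ a, c a ∈ V) ∧
    (∑' n : ℕ, 1 / ((n : ℝ) + 1) ^ i) = ∑ a, c a * v a) with hJ
  obtain ⟨q, hqq0, hq⟩ := sim_comb hV v J (fun i => ∑' n : ℕ, 1 / ((n : ℝ) + 1) ^ i)
    (fun i hi => by
      rw [hJ, Finset.mem_filter] at hi
      exact hi.2.2) q0
  have h2 := hq0 q hqq0
  push_cast at h2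
  refine h2.trans ?_
  have hfin : {i : ℕ | 3 ≤ i ∧ i ≤ s ∧ Odd i ∧ ¬ ∃ c : Fin D → ℝ, (∀ a, c a ∈ V) ∧
        (∑' n : ℕ, 1 / ((n : ℝ) + 1) ^ i) = ∑ a, c a * v a}.Finite :=
    (Set.finite_Iic s).subset fun i hi => hi.2.1
  have hsub : {i : ℕ | 3 ≤ i ∧ i ≤ s ∧ Odd i ∧ ∀ p : ℤ, (q : ℝ) ^ (-(1 / ((D : ℝ) + 1))) ≤
      |(q : ℝ) * (∑' n : ℕ, 1 / ((n : ℝ) + 1) ^ i) - p|} ⊆
      {i : ℕ | 3 ≤ i ∧ i ≤ s ∧ Odd i ∧ ¬ ∃ c : Fin D → ℝ, (∀ a, c a ∈ V) ∧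
        (∑' n : ℕ, 1 / ((n : ℝ) + 1) ^ i) = ∑ a, c a * v a} := by
    rintro i ⟨a1, a2, a3, a4⟩
    refine ⟨a1, a2, a3, fun hmem => ?_⟩
    have hiJ : i ∈ J := by
      rw [hJ, Finset.mem_filter, Finset.mem_Icc]
      exact ⟨⟨a1, a2⟩, a3, hmem⟩
    obtain ⟨p, hp⟩ := hq i hiJ
    exact absurd (a4 p) (not_le.2 hp)
  exact_mod_cast Set.ncard_le_ncard hsub hfin

end Pool.Agent.J6H48.OL
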