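import Pool.Agent.J6H48.OL.A
import Pool.Agent.Q163.LE.Field

/-!
# Odd zeta values over simultaneously Liouville fields
-/

set_option autoImplicit false

namespace Pool.Agent.J6H48.OL

open Filter Topology Pool.Agent.Q163.LE

/-- `∑ 1 / (n + 1) ^ i` -/
noncomputable def zt (i : ℕ) : ℝ := ∑' n : ℕ, 1 / ((n : ℝ) + 1) ^ i

theorem SimLiouville.sa {F : Subfield ℝ} (hF : SimLiouville F) (w : ℕ) : SA (F : Set ℝ) w :=
  fun s hs q0 => hF s hs w q0

/-- the count for spaces over a field -/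
theorem t_field : ∃ s0 : ℕ, ∀ s ≥ s0, ∀ D : ℕ, ((D : ℝ) + 1) ≤ (1 / 1000) * Real.log (Real.log s) →
    ∀ F : Subfield ℝ, SimLiouville F → ∀ W : Submodule F ℝ, FiniteDimensional F W →
    Module.finrank F W ≤ D →
    (1 / 1000) / ((D : ℝ) + 1) * Real.sqrt (s * Real.log (Real.log s) / Real.log s) ≤
      (Set.ncard {i : ℕ | 3 ≤ i ∧ i ≤ s ∧ Odd i ∧ zt i ∉ W} : ℝ) := by
  classical
  obtain ⟨s0, hs0⟩ := t_comb
  refine ⟨s0, fun s hs D hDL F hF W hW hWD => ?_⟩
  have hdD : (Module.finrank F W : ℝ) ≤ D := by exact_mod_cast hWD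
  let b := Module.finBasis F W
  have h1 := hs0 s hs (Module.finrank F W) (by linarith) (F : Set ℝ)
    (SimLiouville.sa hF _) (fun a => ((b a : W) : ℝ))
  have h2 : (1 / 1000) / ((D : ℝ) + 1) * Real.sqrt (s * Real.log (Real.log s) / Real.log s) ≤
      (1 / 1000) / ((Module.finrank F W : ℝ) + 1) *
        Real.sqrt (s * Real.log (Real.log s) / Real.log s) := by
    apply mul_le_mul_of_nonneg_right _ (Real.sqrt_nonneg _)
    apply div_le_div_of_nonneg_left (by norm_num) (by positivity) (by linarith)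
  refine h2.trans (h1.trans ?_)
  have hfin : {i : ℕ | 3 ≤ i ∧ i ≤ s ∧ Odd i ∧ zt i ∉ W}.Finite :=
    (Set.finite_Iic s).subset fun i hi => hi.2.1
  have key : ∀ i : ℕ, zt i ∈ W → ∃ c : Fin (Module.finrank F W) → ℝ, (∀ a, c a ∈ (F : Set ℝ)) ∧
      zt i = ∑ a, c a * ((b a : W) : ℝ) := by
    intro i hi
    refine ⟨fun a => (b.repr ⟨zt i, hi⟩ a : ℝ), fun a => (b.repr ⟨zt i, hi⟩ a).2, ?_⟩
    have h3 := b.sum_repr ⟨zt i, hi⟩
    have h4 := congrArg (Submodule.subtype W) h3
    rw [map_sum] at h4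
    simp only [Submodule.subtype_apply, map_smul] at h4
    refine h4.symm.trans ?_
    refine Finset.sum_congr rfl fun a _ => ?_
    rfl
  have hsub : {i : ℕ | 3 ≤ i ∧ i ≤ s ∧ Odd i ∧ ¬ ∃ c : Fin (Module.finrank F W) → ℝ,
      (∀ a, c a ∈ (F : Set ℝ)) ∧ (∑' n : ℕ, 1 / ((n : ℝ) + 1) ^ i) = ∑ a, c a * ((b a : W) : ℝ)} ⊆
      {i : ℕ | 3 ≤ i ∧ i ≤ s ∧ Odd i ∧ zt i ∉ W} := by
    rintro i ⟨a1, a2, a3, a4⟩
    exact ⟨a1, a2, a3, fun hmem => a4 (key i hmem)⟩
  exact_mod_cast Set.ncard_le_ncard hsub hfin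

/-- the span of the odd zeta values up to `s` -/
theorem t_dim : ∃ s0 : ℕ, ∀ s ≥ s0, ∀ F : Subfield ℝ, SimLiouville F →
    (1 / 1000) * Real.log (Real.log s) - 1 ≤
      (Module.finrank F (Submodule.span F (zt '' {i : ℕ | 3 ≤ i ∧ i ≤ s ∧ Odd i})) : ℝ) := by
  classical
  obtain ⟨s0, hs0⟩ := t_field
  refine ⟨max s0 16, fun s hs F hF => ?_⟩
  have hs1 : s0 ≤ s := (le_max_left _ _).trans hs
  have hs2 : 16 ≤ s := (le_max_right _ _).trans hs
  by_contra hcon
  rw [not_le] at hcon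
  set W := Submodule.span F (zt '' {i : ℕ | 3 ≤ i ∧ i ≤ s ∧ Odd i}) with hW
  have hfin : (zt '' {i : ℕ | 3 ≤ i ∧ i ≤ s ∧ Odd i}).Finite :=
    Set.Finite.image _ ((Set.finite_Iic s).subset fun i hi => hi.2.1)
  have hWf : FiniteDimensional F W := FiniteDimensional.span_of_finite F hfin
  have h1 := hs0 s hs1 (Module.finrank F W) (by linarith) F hF W hWf le_rfl
  have h2 : {i : ℕ | 3 ≤ i ∧ i ≤ s ∧ Odd i ∧ zt i ∉ W} = ∅ := by
    rw [Set.eq_empty_iff_forall_notMem]
    rintro i ⟨a1, a2, a3, a4⟩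
    exact a4 (Submodule.subset_span ⟨i, ⟨a1, a2, a3⟩, rfl⟩)
  rw [h2, Set.ncard_empty] at h1
  have hsr : (16 : ℝ) ≤ s := by exact_mod_cast hs2
  have hl : 1 < Real.log s := by
    rw [Real.lt_log_iff_exp_lt (by linarith)]
    have := Real.exp_one_lt_d9
    linarith
  have hll : 0 < Real.log (Real.log s) := Real.log_pos hl
  have h3 : 0 < Real.sqrt (s * Real.log (Real.log s) / Real.log s) :=
    Real.sqrt_pos.2 (by positivity)
  have h4 : 0 < (1 / 1000) / ((Module.finrank F W : ℝ) + 1) *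
      Real.sqrt (s * Real.log (Real.log s) / Real.log s) := by positivity
  rw [Nat.cast_zero] at h1
  linarith

/-- the odd zeta values span a space of infinite dimension -/
theorem t_inf (F : Subfield ℝ) (hF : SimLiouville F) :
    ¬ FiniteDimensional F (Submodule.span F (zt '' {i : ℕ | 3 ≤ i ∧ Odd i})) := by
  intro hfd
  obtain ⟨s0, hs0⟩ := t_dim
  set W := Submodule.span F (zt '' {i : ℕ | 3 ≤ i ∧ Odd i}) with hW
  have h1 : Tendsto (fun s : ℕ => (1 / 1000) * Real.log (Real.log s)) atTop atTop :=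
    ((Real.tendsto_log_atTop.comp Real.tendsto_log_atTop).comp
      tendsto_natCast_atTop_atTop).const_mul_atTop (by norm_num)
  obtain ⟨s, hs1, hs2⟩ := ((eventually_ge_atTop s0).and
    (h1.eventually_gt_atTop ((Module.finrank F W : ℝ) + 1))).exists
  have h2 := hs0 s hs1 F hF
  have h3 : Module.finrank F (Submodule.span F (zt '' {i : ℕ | 3 ≤ i ∧ i ≤ s ∧ Odd i})) ≤
      Module.finrank F W := by
    apply Submodule.finrank_mono
    apply Submodule.span_mono
    apply Set.image_mono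
    rintro i ⟨a1, _, a3⟩
    exact ⟨a1, a3⟩
  have h4 : (Module.finrank F (Submodule.span F (zt '' {i : ℕ | 3 ≤ i ∧ i ≤ s ∧ Odd i})) : ℝ) ≤
      Module.finrank F W := by exact_mod_cast h3
  linarith

/-- the field generated by a Liouville number -/
theorem sim_liouville {ξ : ℝ} (hξ : Liouville ξ) : SimLiouville (Subfield.closure {ξ}) := by
  choose a b hb _ hab using hξ
  have hb2 : ∀ n, (2 : ℝ) ≤ b n := fun n => by exact_mod_cast hb n
  set T : ℕ → ℝ := fun n => √(n : ℝ) * Real.log (b n) with hTdef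
  have hlb : ∀ n, Real.log 2 ≤ Real.log (b n) := fun n => Real.log_le_log (by norm_num) (hb2 n)
  have hl2 : 0 < Real.log 2 := Real.log_pos (by norm_num)
  have hsq : Tendsto (fun n : ℕ => √(n : ℝ)) atTop atTop :=
    Real.tendsto_sqrt_atTop.comp tendsto_natCast_atTop_atTop
  have hT : Tendsto T atTop atTop := by
    refine tendsto_atTop_mono (fun n => ?_) (hsq.atTop_mul_const hl2)
    exact mul_le_mul_of_nonneg_left (hlb n) (Real.sqrt_nonneg _)
  have hAp : Ap T ξ := by
    refine ⟨2 + |ξ|, by positivity, fun E => ?_⟩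
    filter_upwards [hsq.eventually_ge_atTop (max E 1), hT.eventually_ge_atTop 1] with n hn hT1
    have hn1 : 1 ≤ √(n : ℝ) := (le_max_right _ _).trans hn
    have hnE : E ≤ √(n : ℝ) := (le_max_left _ _).trans hn
    have hb0 : (0 : ℝ) < b n := by linarith [hb2 n]
    have hlb0 : 0 < Real.log (b n) := lt_of_lt_of_le hl2 (hlb n)
    have hTb : Real.log (b n) ≤ T n := by
      rw [hTdef]
      simp only
      nlinarith
    have hbT : (b n : ℝ) ≤ Real.exp (T n) := by
      rw [← Real.exp_log hb0]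
      exact Real.exp_le_exp.2 hTb
    have herr : |ξ - a n / b n| ≤ Real.exp (-(√(n : ℝ) * T n)) := by
      refine (hab n).le.trans (le_of_eq ?_)
      have e1 : √(n : ℝ) * T n = n * Real.log (b n) := by
        rw [hTdef]
        simp only
        rw [← mul_assoc, Real.mul_self_sqrt (Nat.cast_nonneg _)]
      rw [e1, Real.exp_neg, Real.exp_nat_mul, Real.exp_log hb0, one_div]
    refine ⟨a n, b n, ?_, ?_, ?_, ?_⟩
    · have := hb n; omega
    · have h1 : |(a n : ℝ)| ≤ (|ξ| + 1) * b n := by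
        have h2 : |(a n : ℝ) / b n| ≤ |ξ| + |ξ - a n / b n| := by
          have h3 := abs_sub ξ (ξ - a n / b n)
          rwa [sub_sub_cancel] at h3
        have h4 : Real.exp (-(√(n : ℝ) * T n)) ≤ 1 := by
          rw [Real.exp_le_one_iff]
          have : 0 ≤ √(n : ℝ) * T n := by positivity
          linarith
        rw [abs_div, abs_of_pos hb0, div_le_iff₀ hb0] at h2
        nlinarith
      have h5 : |ξ| + 1 ≤ Real.exp |ξ| := by linarith [Real.add_one_le_exp |ξ|]
      calc |(a n : ℝ)| ≤ (|ξ| + 1) * b n := h1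
        _ ≤ Real.exp |ξ| * Real.exp (T n) := by gcongr
        _ = Real.exp (|ξ| + T n) := by rw [Real.exp_add]
        _ ≤ _ := by
            apply Real.exp_le_exp.2
            nlinarith [abs_nonneg ξ]
    · rw [abs_of_pos hb0]
      refine hbT.trans (Real.exp_le_exp.2 ?_)
      nlinarith [abs_nonneg ξ]
    · refine herr.trans (Real.exp_le_exp.2 ?_)
      nlinarith
  refine sim_of_finite _ fun s hs => ⟨T, hT, fun x hx => ?_⟩
  have hle : Subfield.closure {ξ} ≤ ApField T hT := by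
    rw [Subfield.closure_le]
    intro y hy
    rw [Set.mem_singleton_iff] at hy
    rw [hy]
    exact hAp
  exact hle (hs x hx)

end Pool.Agent.J6H48.OL
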